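import Pool.Agent.Y624.SC.Stm

set_option autoImplicit false

/-! CELL3: moving the coordinates, by induction over a finset. -/

namespace Pool.Agent.Y239.SC

open Finset

variable {d : ℕ}

/-- the form -/
noncomputable def F (g : ℝ) (x y : EuclideanSpace ℝ (Fin d)) : ℝ :=
  g / 2 * (‖x‖ ^ 2 + ‖y‖ ^ 2) + inner ℝ x y

lemma F_move (g t : ℝ) (x y v : EuclideanSpace ℝ (Fin d)) :
    F g (x + t • v) (y - t • v) = F g x y + t * ((g - 1) * (inner ℝ x v - inner ℝ y v)) +
      t ^ 2 * ((g - 1) * ‖v‖ ^ 2) := by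
  unfold F
  have h1 : ‖x + t • v‖ ^ 2 = ‖x‖ ^ 2 + 2 * (t * inner ℝ x v) + t ^ 2 * ‖v‖ ^ 2 := by
    rw [norm_add_sq_real, inner_smul_right, norm_smul, mul_pow, Real.norm_eq_abs, sq_abs]
  have h2 : ‖y - t • v‖ ^ 2 = ‖y‖ ^ 2 - 2 * (t * inner ℝ y v) + t ^ 2 * ‖v‖ ^ 2 := by
    rw [norm_sub_sq_real, inner_smul_right, norm_smul, mul_pow, Real.norm_eq_abs, sq_abs]
  have h4 : (inner ℝ v y : ℝ) = inner ℝ y v := real_inner_comm y v
  have h3 : (inner ℝ (x + t • v) (y - t • v) : ℝ) =
      inner ℝ x y - t * inner ℝ x v + t * inner ℝ y v - t ^ 2 * ‖v‖ ^ 2 := by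
    rw [inner_add_left, inner_sub_right, inner_sub_right, real_inner_smul_left,
      real_inner_smul_left, real_inner_smul_right, real_inner_smul_right,
      real_inner_self_eq_norm_sq, h4]
    ring
  rw [h1, h2, h3]
  ring

lemma sum_move {n : ℕ} (v : Fin n → EuclideanSpace ℝ (Fin d)) (a : Fin n → ℝ) (j : Fin n)
    (t : ℝ) : ∑ i, (a i + if i = j then t else 0) • v i = ∑ i, a i • v i + t • v j := by
  simp only [add_smul, ite_smul, zero_smul, sum_add_distrib, sum_ite_eq', mem_univ, if_true]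

lemma sum_move' {n : ℕ} (v : Fin n → EuclideanSpace ℝ (Fin d)) (a : Fin n → ℝ) (j : Fin n)
    (t : ℝ) : ∑ i, (a i - if i = j then t else 0) • v i = ∑ i, a i • v i - t • v j := by
  simp only [sub_smul, ite_smul, zero_smul, sum_sub_distrib, sum_ite_eq', mem_univ, if_true]

lemma choice {g : ℝ} (hg : g ≤ 1) (x y v : EuclideanSpace ℝ (Fin d)) {α β : ℝ} (hα : 0 ≤ α)
    (hβ : 0 ≤ β) : ∃ t : ℝ, 0 ≤ α + t ∧ 0 ≤ β - t ∧ (α + t = 0 ∨ β - t = 0) ∧
      F g (x + t • v) (y - t • v) ≤ F g x y := by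
  by_contra hcon
  have h1 : F g x y < F g (x + β • v) (y - β • v) := by
    by_contra h
    exact hcon ⟨β, by linarith, by linarith, Or.inr (by ring), not_lt.1 h⟩
  have h2 : F g x y < F g (x + (-α) • v) (y - (-α) • v) := by
    by_contra h
    exact hcon ⟨-α, by linarith, by linarith, Or.inl (by ring), not_lt.1 h⟩
  rw [F_move] at h1 h2
  have hQ : (g - 1) * ‖v‖ ^ 2 ≤ 0 := mul_nonpos_of_nonpos_of_nonneg (by linarith) (by positivity)
  set L := (g - 1) * (inner ℝ x v - inner ℝ y v) with hL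
  set Q := (g - 1) * ‖v‖ ^ 2 with hQd
  have h3 : 0 < β * L + β ^ 2 * Q := by linarith
  have h4 : 0 < -α * L + (-α) ^ 2 * Q := by linarith
  have hβ0 : 0 < β := by
    rcases hβ.lt_or_eq with h | h
    · exact h
    · rw [← h] at h3
      simp at h3
  have hα0 : 0 < α := by
    rcases hα.lt_or_eq with h | h
    · exact h
    · rw [← h] at h4
      simp at h4
  have h5 := mul_pos hα0 h3
  have h6 := mul_pos hβ0 h4
  have h7 : 0 ≤ α * β * (α + β) := by positivity
  have h8 : α * β * (α + β) * Q ≤ 0 := mul_nonpos_of_nonneg_of_nonpos h7 hQ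
  nlinarith [h5, h6, h8]

theorem done : Pool.Agent.Y624.SC.S_CELL3 := by
  intro n d v g hg a b ha hb
  have key : ∀ T : Finset (Fin n), ∃ a' b' : Fin n → ℝ, (∀ j, 0 ≤ a' j) ∧ (∀ j, 0 ≤ b' j) ∧
      (∀ j, a' j + b' j = a j + b j) ∧ (∀ j ∈ T, a' j = 0 ∨ b' j = 0) ∧
      F g (∑ j, a' j • v j) (∑ j, b' j • v j) ≤ F g (∑ j, a j • v j) (∑ j, b j • v j) := by
    intro T
    induction T using Finset.induction_on with
    | empty => exact ⟨a, b, ha, hb, fun _ => rfl, fun j hj => absurd hj (by simp), le_rfl⟩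
    | insert j T hj ih =>
      obtain ⟨a', b', h1, h2, h3, h4, h5⟩ := ih
      obtain ⟨t, t1, t2, t3, t4⟩ := choice hg (∑ i, a' i • v i) (∑ i, b' i • v i) (v j)
        (h1 j) (h2 j)
      refine ⟨fun i => a' i + if i = j then t else 0, fun i => b' i - if i = j then t else 0,
        ?_, ?_, ?_, ?_, ?_⟩
      · intro i
        by_cases hi : i = j
        · subst hi
          simpa using t1
        · simpa [hi] using h1 i
      · intro i
        by_cases hi : i = j
        · subst hi
          simpa using t2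
        · simpa [hi] using h2 i
      · intro i
        have := h3 i
        show a' i + (if i = j then t else 0) + (b' i - if i = j then t else 0) = a i + b i
        linarith
      · intro i hi
        by_cases hij : i = j
        · subst hij
          simpa using t3
        · have h6 := h4 i ((Finset.mem_insert.1 hi).resolve_left hij)
          simpa [hij] using h6
      · show F g (∑ i, (a' i + if i = j then t else 0) • v i)
          (∑ i, (b' i - if i = j then t else 0) • v i) ≤ _
        rw [sum_move, sum_move']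
        exact t4.trans h5
  obtain ⟨a', b', h1, h2, h3, h4, h5⟩ := key Finset.univ
  exact ⟨a', b', h1, h2, h3, fun j => h4 j (Finset.mem_univ j), h5⟩

end Pool.Agent.Y239.SC
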